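import Pool.Agent.helper91.HZ.Spec

/-!
# hz:RDC, the embedding of the number field in the ultraproduct

Helper file for MP_2e0e07_nt (project hz).
-/

namespace Pool.Agent.HZ

open Matrix Polynomial Pool.Agent.GO Pool.Agent.AR Pool.Agent.RG MeasureTheory NumberField

theorem RDC_inj {E k : Type} [Field E] [NumberField E] [Field k] [CharZero k] (f : 𝓞 E →+* k) :
    Function.Injective f := by
  rw [RingHom.injective_iff_ker_eq_bot]
  refine Ideal.eq_bot_of_comap_eq_bot (R := ℤ) ?_
  rw [eq_bot_iff]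
  intro m hm
  rw [Ideal.mem_comap, RingHom.mem_ker] at hm
  have h1 : f (algebraMap ℤ (𝓞 E) m) = (m : k) := by
    rw [eq_intCast, map_intCast]
  rw [h1] at hm
  rw [Ideal.mem_bot]
  exact_mod_cast hm

theorem RDC : RDC_stmt := by
  intro J 𝒰 κ _ p k _ _ π hUP E _ _ φ
  set ι₀ : 𝓞 E →+* k := π.comp (RingHom.pi φ) with hι₀
  have hinj : Function.Injective ι₀ := RDC_inj ι₀
  refine ⟨IsFractionRing.lift hinj, ?_⟩
  intro x y hy
  obtain ⟨a, b, hb, rfl⟩ := IsFractionRing.div_surjective (A := 𝓞 E) x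
  have hb0 : b ≠ 0 := nonZeroDivisors.ne_zero hb
  have hb1 : algebraMap (𝓞 E) E b ≠ 0 := by
    intro h
    exact hb0 ((FaithfulSMul.algebraMap_injective (𝓞 E) E) (by rw [h, map_zero]))
  have hb2 : ι₀ b ≠ 0 := by
    intro h
    exact hb0 (hinj (by rw [h, map_zero]))
  rw [map_div₀, IsFractionRing.lift_algebraMap, IsFractionRing.lift_algebraMap, div_eq_iff hb2]
  -- almost everywhere
  have h1 : ∀ᶠ j in (𝒰 : Filter J), ((RingHom.pi φ) a - y * (RingHom.pi φ) b) j = 0 := by
    filter_upwards [hy] with j hj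
    obtain ⟨c, m, hm, hx, hyj⟩ := hj
    have h2 : (m : E) * algebraMap (𝓞 E) E a = algebraMap (𝓞 E) E c * algebraMap (𝓞 E) E b := by
      rw [← hx]
      field_simp
    have h3 : (m : 𝓞 E) * a = c * b := by
      apply FaithfulSMul.algebraMap_injective (𝓞 E) E
      rw [map_mul, map_mul, map_natCast]
      exact h2
    have h4 : (m : κ j) * φ j a = φ j c * φ j b := by
      rw [← map_natCast (φ j), ← map_mul, h3, map_mul]
    rw [← hyj, mul_assoc] at h4
    have h5 : φ j a = y j * φ j b := mul_left_cancel₀ hm h4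
    show φ j a - y j * φ j b = 0
    rw [h5, sub_self]
  have h6 := (hUP.zero _).2 h1
  rw [map_sub, map_mul, sub_eq_zero] at h6
  exact h6

end Pool.Agent.HZ
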